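import Pool.Agent.KS6_77.FK.Main2

set_option autoImplicit false

/-! # Small-prime parts of consecutive integers: `F(k) ≥ c k` for every `k`, and in longer blocks -/

namespace Pool.Agent.Results.MP_5968ce_nt.EveryLength

/-- `A(n, k)`: the part of `n` composed of primes smaller than `k`. -/
def smallPart (n k : ℕ) : ℕ :=
  ∏ p ∈ (Finset.range k).filter Nat.Prime, p ^ (n.factorization p)

/-- There is a constant `c > 0` such that for **every** `k` there is an `n` for which all the
integers `n + i`, `1 ≤ i ≤ (1 + c) k`, satisfy `A(n + i, k) ≥ c k`. In particular `F(k) ≥ c k` for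
every `k ≥ 2`. -/
theorem result : ∃ c : ℝ, 0 < c ∧ ∀ k : ℕ, ∃ n : ℕ, ∀ i : ℕ, 1 ≤ i → (i : ℝ) ≤ (1 + c) * k →
    c * k ≤ (smallPart (n + i) k : ℝ) :=
  Pool.Agent.KS6_77.FK.main3

end Pool.Agent.Results.MP_5968ce_nt.EveryLength
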